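import Pool.Agent.Lib.MP_2c6a66_lc.Exact
import Pool.Agent.Lib.MP_2c6a66_lc.Numeric
import Pool.Agent.Lib.MP_2c6a66_lc.UX.Value

/-! The optimal ratios of truthful-in-expectation and of universally truthful mechanisms for two
unrelated machines. Both are attained and both are values of minimax problems over monotone
functions of one variable. -/

namespace Pool.Agent.Results.MP_2c6a66_lc.BothRatios

open MeasureTheory

theorem result :
    ∃ E U : ℝ, 15059957 / 10000000 ≤ E ∧ E ≤ 15059958 / 10000000 ∧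
      157747 / 100000 ≤ U ∧ U ≤ 157764 / 100000 ∧
      (∀ c : ℝ,
        (∀ n : ℕ, ∃ (p : (Fin 2 → Fin n → ℝ) → (Fin n → Fin 2) → ℝ)
            (pay : (Fin 2 → Fin n → ℝ) → Fin 2 → ℝ),
          ∀ b : Fin 2 → Fin n → ℝ, (∀ i k, 0 ≤ b i k) →
            (∀ σ, 0 ≤ p b σ) ∧
            (∑ σ, p b σ = 1) ∧
            (∀ (i : Fin 2) (r : Fin n → ℝ), (∀ k, 0 ≤ r k) →
              pay (Function.update b i r) i
                  - ∑ σ, p (Function.update b i r) σ * ∑ k with σ k = i, b i k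
                ≤ pay b i - ∑ σ, p b σ * ∑ k with σ k = i, b i k) ∧
            (∀ τ : Fin n → Fin 2,
              ∑ σ, p b σ * max (∑ k with σ k = 0, b 0 k) (∑ k with σ k = 1, b 1 k)
                ≤ c * max (∑ k with τ k = 0, b 0 k) (∑ k with τ k = 1, b 1 k)))
          ↔ E ≤ c) ∧
      (∀ c : ℝ,
        (∃ w : ℝ → ℝ,
          (∀ x, 0 < x → 0 ≤ w x ∧ w x ≤ 1) ∧
          (∀ x y, 0 < x → x ≤ y → w y ≤ w x) ∧
          (∀ x, 0 < x → w x + w (1 / x) = 1) ∧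
          (∀ x y, 0 < y → 1 + y ≤ x → 1 + y * w y + (x - 1 - y) * w x ≤ c))
          ↔ E ≤ c) ∧
      (∀ c : ℝ,
        (∀ n : ℕ, ∃ (Ω : Type) (_ : MeasurableSpace Ω) (μ : Measure Ω)
            (_ : IsProbabilityMeasure μ)
            (X : Ω → (Fin 2 → Fin n → ℝ) → Fin n → Fin 2)
            (pay : Ω → (Fin 2 → Fin n → ℝ) → Fin 2 → ℝ),
          (∀ ω (b : Fin 2 → Fin n → ℝ), (∀ i k, 0 ≤ b i k) →
            ∀ (i : Fin 2) (r : Fin n → ℝ), (∀ k, 0 ≤ r k) →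
              pay ω (Function.update b i r) i - ∑ k with X ω (Function.update b i r) k = i, b i k
                ≤ pay ω b i - ∑ k with X ω b k = i, b i k) ∧
          (∀ b : Fin 2 → Fin n → ℝ, (∀ i k, 0 ≤ b i k) → Measurable fun ω => X ω b) ∧
          (∀ b : Fin 2 → Fin n → ℝ, (∀ i k, 0 ≤ b i k) → ∀ τ : Fin n → Fin 2,
            ∫ ω, max (∑ k with X ω b k = 0, b 0 k) (∑ k with X ω b k = 1, b 1 k) ∂μ
              ≤ c * max (∑ k with τ k = 0, b 0 k) (∑ k with τ k = 1, b 1 k)))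
          ↔ U ≤ c) ∧
      (∀ c : ℝ,
        (∃ (Ω : Type) (_ : MeasurableSpace Ω) (μ : Measure Ω) (_ : IsProbabilityMeasure μ)
            (k : Ω → ℝ → ℝ),
          (∀ ω x, 0 < x → 0 ≤ k ω x ∧ k ω x ≤ 1) ∧
          (∀ ω x y, 0 < x → x ≤ y → k ω x ≤ k ω y) ∧
          (∀ x, 0 < x → Measurable fun ω => k ω x) ∧
          (∀ x y, 0 < x → 0 < y →
            ∫ ω, ((1 + y) * (k ω x * k ω (1 / y)) + k ω x * (1 - k ω (1 / y))
              + max x y * ((1 - k ω x) * k ω (1 / y))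
              + (1 + x) * ((1 - k ω x) * (1 - k ω (1 / y)))) ∂μ ≤ c))
          ↔ U ≤ c) := by
  obtain ⟨κ, hκ⟩ := Lib.MP_2c6a66_lc.exists_least
  have hprof : ∀ c : ℝ, (∃ w, Lib.MP_2c6a66_lc.UB.Prof (c - 1) w) ↔ 1 + κ ≤ c := by
    intro c
    rw [hκ (c - 1)]
    constructor <;> intro h <;> linarith
  obtain ⟨R, h1, h2, hR⟩ := Lib.MP_2c6a66_lc.UX.exists_value
  refine ⟨1 + κ, R, ?_, ?_, h1, h2, fun c => ?_, fun c => ?_, fun c => ?_, fun c => ?_⟩
  · obtain ⟨w, hw⟩ := (hκ κ).2 le_rfl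
    have := Lib.MP_2c6a66_lc.Numeric.kappa_lower hw
    linarith
  · have := (hκ _).1 ⟨_, Lib.MP_2c6a66_lc.Numeric.prof_segs⟩
    linarith
  · rw [← hprof c]
    exact Lib.MP_2c6a66_lc.mechanisms_iff
  · rw [← hprof c]
    constructor
    · rintro ⟨w, h1, h2, h3, h4⟩
      exact ⟨w, fun x hx => (h1 x hx).1, fun x hx => (h1 x hx).2, h2, h3,
        fun x y hy hx => by linarith [h4 x y hy hx]⟩
    · rintro ⟨w, hw⟩
      exact ⟨w, fun x hx => ⟨hw.nonneg x hx, hw.le_one x hx⟩, hw.anti, hw.symm,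
        fun x y hy hx => by linarith [hw.star x y hy hx]⟩
  · rw [← hR c, ← Lib.MP_2c6a66_lc.UX.hasUT_iff]
    rfl
  · rw [← hR c, ← Lib.MP_2c6a66_lc.UX.plainMix_iff]
    rfl

end Pool.Agent.Results.MP_2c6a66_lc.BothRatios
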